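import Mathlib
import Pool.Agent.X223.ADN.Code

set_option autoImplicit false

namespace Pool.Agent.Results.MP_9c9736_lc.Undecidable

open Pool.Agent.X223.ADN

/-- Every polynomial `g ∈ ℚ[p_1,p_2,...]` has a code; and no Turing machine decides, given a code of
`g`, whether `f = g(p_1,p_2,...)` is any-dimensional non-negative, and none decides whether `f` is
any-dimensional positive. -/
theorem result : (∀ g : MvPolynomial ℕ ℚ, ∃ L : Code, decode L = g) ∧
    (¬ ComputablePred (fun L : Code => NonNeg (decode L))) ∧
    ¬ ComputablePred (fun L : Code => Pos (decode L)) :=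
  ⟨decode_surj, main⟩

end Pool.Agent.Results.MP_9c9736_lc.Undecidable
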